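import Pool.Agent.Helper24.AT.Main

/-!
# 3SUM needs quadratically many polynomial tests which read only few numbers

The definitions are in `Pool.Agent.Helper24.AT.Weight` (`weight`), `Pool.Agent.Helper24.AT.Adversary`
(`Pos`, `Restricted`), `Pool.Agent.Helper24.AT.Tree` (`Test`, `Test.Cross`, `Tree`, `Tree.run`,
`Tree.cost`, `Tree.All`, `pr`) and `Pool.Agent.Helper24.AT.Props` (`Solved`).
-/

open MvPolynomial

namespace Pool.Agent.Results.MP_8f87b2_lc.AlgebraicTests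

open Pool.Agent.Helper24.AT

theorem result :
    -- integers
    (∀ (n D : ℕ) (L Q R : ℤ), 1 ≤ n → 1 ≤ D → 1 ≤ L → 1 ≤ Q →
      (32 * L * Q * (n : ℤ) ^ 2 * (6 * (n : ℤ) ^ 2) ^ D) ^
        (2 * D ^ 3 + 7 * D ^ 2 + 12 * D + 3) ≤ R →
      ∃ x : Pos n → ℤ, (Function.Injective x ∧ (∀ v, |x v| ≤ R) ∧ ¬ Solved x) ∧
        (∀ (m : ℕ) (σ : Fin m → Test ℤ n),
          (∀ r, (σ r).poly.totalDegree ≤ D ∧ weight (σ r).poly ≤ L) →
          2 * Nat.card {r : Fin m // (σ r).Cross} < n * (n + 1) →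
          ∃ y : Pos n → ℤ, Function.Injective y ∧ (∀ v, |y v| ≤ R) ∧ Solved y ∧
            (∀ i, y (0, i) = x (0, i)) ∧ (∀ v, y v ≡ x v [ZMOD Q]) ∧
            ∀ r, SignType.sign (eval x (σ r).poly) = SignType.sign (eval y (σ r).poly)) ∧
        (∀ (Ω : Type) [Fintype Ω] (w : Ω → ℝ), (∀ ω, 0 ≤ w ω) → ∑ ω, w ω = 1 →
          ∀ (p : ℝ) (τ : Ω → Tree ℤ n),
          (∀ ω, (τ ω).All fun t => t.poly.totalDegree ≤ D ∧ weight t.poly ≤ L) →
          (∀ y : Pos n → ℤ, Function.Injective y → (∀ v, |y v| ≤ R) →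
            (∀ i, y (0, i) = x (0, i)) → (∀ v, y v ≡ x v [ZMOD Q]) →
            p ≤ pr w fun ω => ((τ ω).run y = true ↔ Solved y)) →
          (2 * p - 1) * ((n : ℝ) * (n + 1) / 2) ≤ ∑ ω, w ω * ((τ ω).cost x : ℝ))) ∧
    -- reals, certificates
    (∀ n : ℕ, 1 ≤ n → ∀ (M : ℕ) (F : Fin M → Test ℝ n),
      ∃ x : Pos n → ℝ, (Function.Injective x ∧ ¬ Solved x) ∧
        ∀ I : Finset (Fin M), 2 * Nat.card {r : Fin M // r ∈ I ∧ (F r).Cross} < n * (n + 1) →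
          ∃ y : Pos n → ℝ, Function.Injective y ∧ Solved y ∧ (∀ i, y (0, i) = x (0, i)) ∧
            ∀ r ∈ I, SignType.sign (eval x (F r).poly) = SignType.sign (eval y (F r).poly)) ∧
    -- reals, algorithms
    (∀ n : ℕ, 1 ≤ n → ∀ (Ω : Type) [Fintype Ω] (w : Ω → ℝ), (∀ ω, 0 ≤ w ω) → ∑ ω, w ω = 1 →
      ∀ (p : ℝ) (τ : Ω → Tree ℝ n),
      (∀ y : Pos n → ℝ, Function.Injective y →
        p ≤ pr w fun ω => ((τ ω).run y = true ↔ Solved y)) →
      ∃ x : Pos n → ℝ, (Function.Injective x ∧ ¬ Solved x) ∧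
        (2 * p - 1) * ((n : ℝ) * (n + 1) / 2) ≤ ∑ ω, w ω * ((τ ω).cost x : ℝ)) := by
  refine ⟨?_, ?_, ?_⟩
  · intro n D L Q R hn hD hL hQ hR
    exact main_int n D L Q R hn hD hL hQ hR
  · intro n hn M F
    exact main_real_cert n hn M F
  · intro n hn Ω _ w hw hw1 p τ hcorr
    exact main_real_alg n hn Ω w hw hw1 p τ hcorr

end Pool.Agent.Results.MP_8f87b2_lc.AlgebraicTests
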