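import Pool.Agent.Helper24.FL.Transport

/-!
# The 3SUM problem and tests which read four numbers

A test of an algorithm for the 3SUM problem evaluates the sign of a polynomial, of any degree and
with any real coefficients, in a few of the given numbers.  It is shown that tests which read at
most four numbers (not all four from the same third of the list) are not sufficient for an
algorithm with `n ^ (1 + o(1))` steps of the kind `n * polylog n`: at least
`n * 2 ^ (√(log n) / 32)` of the tests are needed.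
-/

open MvPolynomial

namespace Pool.Agent.Results.MP_8f87b2_lc.FourNumberTests

open Pool.Agent.Helper24.FL

/-- The choice of the parameters. -/
theorem exists_params (n : ℕ) (hn : (2 : ℝ) ^ 20 ≤ Real.logb 2 n) :
    ∃ p R : ℕ, p.Prime ∧ 2 ≤ R ∧ 2 * p ≤ 2 ^ (R - 1) ∧ p ^ (512 * (R + 1)) ≤ n ∧
      (n : ℝ) * 2 ^ (√(Real.logb 2 n) / 32) ≤ (n : ℝ) * p / 4 := by
  set L := Real.logb 2 n with hL
  have hL0 : 0 ≤ L := le_trans (by positivity) hn
  have hn0 : 0 < (n : ℝ) := by
    rcases Nat.eq_zero_or_pos n with h | h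
    · exfalso
      rw [hL, h, Nat.cast_zero, Real.logb_zero] at hn
      norm_num at hn
    · exact_mod_cast h
  have hs : (1024 : ℝ) ≤ √L := by
    apply Real.le_sqrt_of_sq_le
    refine le_trans ?_ hn
    norm_num
  set m := ⌊√L / 24⌋₊ with hm
  have hm1 : (m : ℝ) ≤ √L / 24 := Nat.floor_le (by positivity)
  have hm2 : √L / 24 < m + 1 := Nat.lt_floor_add_one _
  have hm3 : 6 ≤ m := by
    have : (6 : ℝ) < m + 1 := by linarith
    have h' : (6 : ℕ) < m + 1 := by exact_mod_cast this
    omega
  obtain ⟨p, hp, hp1, hp2⟩ := Nat.exists_prime_lt_and_le_two_mul (2 ^ (m - 4)) (by positivity)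
  refine ⟨p, m - 1, hp, by omega, ?_, ?_, ?_⟩
  · have e : m - 1 - 1 = (m - 4) + 2 := by omega
    rw [e, pow_add]
    omega
  · have h1 : p ≤ 2 ^ (m - 3) := by
      have e : m - 3 = (m - 4) + 1 := by omega
      rw [e, pow_succ]
      omega
    have h2 : p ^ (512 * (m - 1 + 1)) ≤ 2 ^ (512 * m ^ 2) := by
      calc p ^ (512 * (m - 1 + 1)) ≤ (2 ^ (m - 3)) ^ (512 * (m - 1 + 1)) :=
            Nat.pow_le_pow_left h1 _
        _ = 2 ^ ((m - 3) * (512 * (m - 1 + 1))) := by rw [← pow_mul]
        _ ≤ 2 ^ (512 * m ^ 2) := by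
            refine Nat.pow_le_pow_right (by norm_num) ?_
            have e : m - 1 + 1 = m := by omega
            rw [e]
            calc (m - 3) * (512 * m) ≤ m * (512 * m) := Nat.mul_le_mul_right _ (by omega)
              _ = 512 * m ^ 2 := by ring
    refine h2.trans ?_
    have h3 : ((512 * m ^ 2 : ℕ) : ℝ) ≤ L := by
      push_cast
      have h4 : (m : ℝ) ^ 2 ≤ (√L / 24) ^ 2 := pow_le_pow_left₀ (by positivity) hm1 2
      rw [div_pow, Real.sq_sqrt hL0] at h4
      linarith
    have h5 : (2 : ℝ) ^ ((512 * m ^ 2 : ℕ) : ℝ) ≤ n := by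
      rw [hL] at h3
      exact (Real.le_logb_iff_rpow_le (by norm_num) hn0).1 h3
    rw [Real.rpow_natCast] at h5
    exact_mod_cast h5
  · have h1 : (2 : ℝ) ^ (√L / 32) ≤ 2 ^ ((m - 6 : ℕ) : ℝ) := by
      refine Real.rpow_le_rpow_of_exponent_le (by norm_num) ?_
      push_cast [hm3]
      linarith
    rw [Real.rpow_natCast] at h1
    have h2 : (2 : ℝ) ^ (m - 6) ≤ p / 4 := by
      have e : (2 : ℝ) ^ (m - 4) = 2 ^ (m - 6) * 4 := by
        have e' : m - 4 = (m - 6) + 2 := by omega
        rw [e', pow_add]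
        norm_num
      have h3 : (2 : ℝ) ^ (m - 4) < p := by exact_mod_cast hp1
      linarith
    rw [mul_div_assoc]
    exact mul_le_mul_of_nonneg_left (h1.trans h2) hn0.le

/-- **Tests which read four numbers.**  Let `n ≥ 2 ^ (2 ^ 20)`.

* For every finite set `J` of polynomials which read at most four numbers (not all four in the same
  third) there is a list of `3 n` different numbers without a solution of `a + b + c = 0` such that
  for all `I ⊆ J` with fewer than `n * 2 ^ (√(log₂ n) / 32)` polynomials in at least three numbers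
  a list of different numbers with a solution has the same signs for the polynomials of `I`.
* A randomized algorithm with such tests which is correct with probability at least `δ` needs in
  expectation at least `(2 δ - 1) * n * 2 ^ (√(log₂ n) / 32)` tests in three or four numbers on
  a list of `3 n` different numbers without a solution. -/
theorem result (n : ℕ) (hn : (2 : ℝ) ^ 20 ≤ Real.logb 2 n) :
    (∀ J : Finset (MvPolynomial (Pos n) ℝ), (∀ q ∈ J, Four (fun v : Pos n => v.1) q.vars) →
      ∃ x : Pos n → ℝ, (Function.Injective x ∧ ¬ Solved x) ∧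
        ∀ I ⊆ J, ((I.filter fun q => 3 ≤ q.vars.card).card : ℝ) <
            n * 2 ^ (√(Real.logb 2 n) / 32) →
          ∃ y : Pos n → ℝ, Function.Injective y ∧ Solved y ∧
            ∀ q ∈ I, SignType.sign (eval x q) = SignType.sign (eval y q)) ∧
    (∀ (Ω : Type) [Fintype Ω] (w : Ω → ℝ), (∀ ω, 0 ≤ w ω) → ∑ ω, w ω = 1 →
      ∀ (δ : ℝ) (τ : Ω → Tree n), (∀ ω, (τ ω).All fun q => Four (fun v : Pos n => v.1) q.vars) →
        (∀ y : Pos n → ℝ, Function.Injective y →
          δ ≤ pr w fun ω => ((τ ω).run y = true ↔ Solved y)) →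
        ∃ x : Pos n → ℝ, (Function.Injective x ∧ ¬ Solved x) ∧
          (2 * δ - 1) * (n * 2 ^ (√(Real.logb 2 n) / 32)) ≤
            ∑ ω, w ω * ((τ ω).cost x : ℝ)) := by
  obtain ⟨p, R, hp, hR, hpR, hpn, hle⟩ := exists_params n hn
  haveI : Fact p.Prime := ⟨hp⟩
  constructor
  · intro J hJ
    obtain ⟨x, hx, h⟩ := certificate p R n hR hpR hpn J hJ
    refine ⟨x, hx, fun I hI hlt => h I hI ?_⟩
    have h1 : ((I.filter fun q => 3 ≤ q.vars.card).card : ℝ) < (n : ℝ) * p / 4 := hlt.trans_le hle
    have h2 : (4 : ℝ) * ((I.filter fun q => 3 ≤ q.vars.card).card : ℝ) < (n : ℝ) * p := by linarith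
    exact_mod_cast h2
  · intro Ω _ w hw hw1 δ τ hτ hcorr
    obtain ⟨x, hx, h⟩ := algorithms p R n hR hpR hpn Ω w hw hw1 δ τ hτ hcorr
    refine ⟨x, hx, ?_⟩
    have hcost : 0 ≤ ∑ ω, w ω * ((τ ω).cost x : ℝ) :=
      Finset.sum_nonneg fun ω _ => mul_nonneg (hw ω) (Nat.cast_nonneg _)
    have hpos : (0 : ℝ) ≤ n * 2 ^ (√(Real.logb 2 n) / 32) := by positivity
    by_cases hδ : 0 ≤ 2 * δ - 1
    · refine le_trans (mul_le_mul_of_nonneg_left hle hδ) ?_
      have : (n : ℝ) * p / 4 = (n : ℝ) * p / 4 := rfl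
      exact h
    · exact (mul_nonpos_of_nonpos_of_nonneg (by linarith) hpos).trans hcost

end Pool.Agent.Results.MP_8f87b2_lc.FourNumberTests
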